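import Pool.Agent.Helper15_EDX.FIN
import Pool.Agent.Helper15_EDX.MDC
import Pool.Agent.Helper16_EDX.IRF
import Pool.Agent.Helper21_EDX.LGF
import Pool.Agent.Helper21_EDX.PET
import Pool.Agent.Helper23_EDX.WMU
import Pool.Agent.Helper24_EDX.FCT
import Pool.Agent.Helper25_EDX.IVB
import Pool.Agent.Helper26_EDX.CNT
import Pool.Agent.Helper28_EDX.MAX
import Pool.Agent.Helper28_EDX.QZ0
import Pool.Agent.Helper28_EDX.VDM
import Pool.Agent.Helper29_EDX.CPK
import Pool.Agent.Helper29_EDX.GCD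
import Pool.Agent.Helper29_EDX.SVD
import Pool.Agent.Helper2_EDX.NDV
import Pool.Agent.Helper30_EDG.CMP
import Pool.Agent.Helper30_EDX.DAT
import Pool.Agent.Helper30_EDX.DSD
import Pool.Agent.Helper30_EDX.TAD
import Pool.Agent.Helper31_EDX.HDG
import Pool.Agent.Helper31_EDX.HPC
import Pool.Agent.Helper32_EDX.CSB
import Pool.Agent.Helper32_EDX.MDB
import Pool.Agent.Helper38_EDX.STR
import Pool.Agent.Helper39_EDX.TBM
import Pool.Agent.Helper3_EDX.IDX
import Pool.Agent.Helper3_EDX.NMA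
import Pool.Agent.Helper41_EDX.CSA
import Pool.Agent.Helper41_EDX.INT
import Pool.Agent.Helper42_EDX.CHN
import Pool.Agent.Helper44_EDX.CAC
import Pool.Agent.Helper44_EDX.KRK
import Pool.Agent.Helper45_EDX.FUL
import Pool.Agent.Helper49_EDX.ARC
import Pool.Agent.Helper49_EDX.ARE
import Pool.Agent.Helper49_EDX.HPR
import Pool.Agent.Helper49_EDX.LGB
import Pool.Agent.Helper49_EDX.VAN
import Pool.Agent.Helper52_EDX.MDA
import Pool.Agent.Helper55_EDX.PGN
import Pool.Agent.Helper59_EDX.STP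
import Pool.Agent.Helper66_EDG.SET
import Pool.Agent.Helper67_EDX.BAS
import Pool.Agent.Helper67_EDX.PAR
import Pool.Agent.Helper68_EDX.ANN
import Pool.Agent.Helper68_EDX.BLK
import Pool.Agent.Helper68_EDX.CPT
import Pool.Agent.Helper69_EDX.HNF
import Pool.Agent.Helper70_EDX.RED
import Pool.Agent.Helper72_EDX.CLS
import Pool.Agent.Helper77_EDX.BN2
import Pool.Agent.Helper77_EDX.PT1
import Pool.Agent.Helper81_EDX.MVP
import Pool.Agent.Helper86_EDX.LLN
import Pool.Agent.Helper86_EDX.PRD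
import Pool.Agent.Helper88_EDX.FDW
import Pool.Agent.Helper8_EDX.MD2
import Pool.Agent.Helper8_EDX.MDD
import Pool.Agent.Helper8_EDX.SQA
import Pool.Agent.Helper90_EDX.FRO
import Pool.Agent.Helper91_EDX.DWN
import Pool.Agent.Helper91_EDX.FAM
import Pool.Agent.Helper92_EDX.NMB
import Pool.Agent.Helper94_EDX.HAD
import Pool.Agent.Helper98_EDX.INJ

/-! Every irreducible factor of the `n`-th Gleason polynomial has degree at least `2 ^ ((1 - ε) n) / C`.

`G_n` is the monic integer polynomial of degree about `2 ^ (n - 1)` whose roots are the parameters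
`c` for which `0` has exact period `n` under `z ↦ z ^ 2 + c`.  Its irreducible factors over `ℚ` are
the minimal polynomials over `ℚ` of these `c`. -/

set_option autoImplicit false

namespace Pool.Agent.Results.MP_74088a_nt.DegreeExponentOne

open Polynomial Pool.Agent.EDX

/-- For every `ε > 0` there is a constant `C` such that, for every `n ≥ 1` and every parameter `c` for
which `0` has exact period `n` under `z ↦ z ^ 2 + c` (that is, every root `c` of the Gleason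
polynomial `G_n`), `2 ^ ((1 - ε) n) ≤ C * [ℚ(c) : ℚ]`. -/
theorem result :
    ∀ ε : ℝ, 0 < ε → ∃ C : ℝ, ∀ (n : ℕ) (c : ℂ), 0 < n →
      Function.minimalPeriod (fun z : ℂ => z ^ 2 + c) 0 = n →
        (2 : ℝ) ^ ((1 - ε) * n) ≤ C * (minpoly ℚ c).natDegree := by
  have hPT1 : Pt1Stmt := Pool.Agent.EDX.H77.pt1
  have hPET : PetStmt := Pool.Agent.EDX.H21.pet hPT1
  have hGCD : GcdStmt := Pool.Agent.EDX.H29.gcd
  have hMAX : MaxStmt := Pool.Agent.EDX.H28.max_
  have hDWN : DwnStmt := Pool.Agent.Helper91_EDX.DWN.result hGCD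
  have hHNF : HnfStmt := Pool.Agent.EDX.H69.hnf
  have hFDW : FdwStmt := Pool.Agent.EDX.H88.fdw hGCD hHNF
  have hCHN : ChnStmt := Pool.Agent.EDX.H42.chn hMAX hDWN hFDW
  have hDAT : DatStmt := Pool.Agent.EDX.H30.dat
  have hINJ : InjStmt := Pool.Agent.EDX.H98.inj
  have hHPR : HprStmt := Pool.Agent.EDX.H49.hpr
  have hHPC : HpcStmt := Pool.Agent.EDX.H31.hpc
  have hWMU : WmuStmt := Pool.Agent.EDX.H23.wmu
  have hKRK : KrkStmt := Pool.Agent.EDX.H44.krk
  have hSTR : StrStmt := Pool.Agent.EDX.H38.str hPET hKRK hHPR hHPC hWMU hINJ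
  have hCAC : CacStmt := Pool.Agent.EDX.H44.cac hSTR hCHN hDAT
  have hINT : IntStmt := Pool.Agent.EDX.H41.int
  have hRED : RedStmt := Pool.Agent.EDX.H70.red
  have hMDA : MdaStmt := Pool.Agent.EDX.H52.mda
  have hMDB : MdbStmt := Pool.Agent.EDX.H32.mdb
  have hMDC : MdcStmt := Pool.Agent.EDX.H15.mdc
  have hMDD : MddStmt := Pool.Agent.EDX.H8.mdd
  have hMD2 : Md2Stmt := Pool.Agent.EDX.H8.md2 hRED hMDA hMDB hMDC hMDD
  have hFUL : FulStmt := Pool.Agent.EDX.H45.ful hRED hMDB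
  have hFRO : FroStmt := Pool.Agent.EDX.H90.fro
  have hIRF : IrfStmt := Pool.Agent.EDX.H16.irf
  have hSTP : StpStmt := Pool.Agent.EDX.H59.stp
  have hCNT : CntStmt := Pool.Agent.EDX.H26.cnt
  have hPGN : PgnStmt := Pool.Agent.EDX.H55.pgn hFRO hIRF hSTP hCNT
  have hPRD : PrdStmt := Pool.Agent.EDX.H86.prd
  have hNDV : NdvStmt := Pool.Agent.EDX.H2.ndv
  have hCSA : CsaStmt := Pool.Agent.EDX.H41.csa hCAC hINT hMD2 hPGN hPRD hNDV Pool.Agent.EDG.H30.cmp_all
  have hBAS : BasStmt := Pool.Agent.EDX.H67.bas hFUL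
  have hCLS : ClsStmt := Pool.Agent.EDX.H72.cls
  have hIDX : IdxStmt := Pool.Agent.EDX.H3.idx
  have hVAN : VanStmt := Pool.Agent.EDX.H49.van
  have hTAD : TadStmt := Pool.Agent.EDX.H30.tad hBAS hCLS hIDX hVAN
  have hBN2 : Bn2Stmt := Pool.Agent.EDX.H77.bn2
  have hCPK : CpkStmt := Pool.Agent.EDX.H29.cpk
  have hSQA : SqaStmt := Pool.Agent.EDX.H8.sqa
  have hIVB : IvbStmt := Pool.Agent.EDX.H25.ivb hSQA
  have hLGF : LgfStmt := Pool.Agent.EDX.H21.lgf
  have hDSD : DsdStmt := Pool.Agent.EDX.H30.dsd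
  have hMVP : MvpStmt := Pool.Agent.EDX.H81.mvp
  have hANN : AnnStmt := Pool.Agent.EDX.H68.ann
  have hARE : AreStmt := Pool.Agent.EDX.H49.are hDSD hANN
  have hLGB : LgbStmt := Pool.Agent.EDX.H49.lgb hLGF hDSD hMVP hARE
  have hVDM : VdmStmt := Pool.Agent.EDX.H28.vdm
  have hTBM : TbmStmt := Pool.Agent.EDX.H39.tbm hIVB hLGB hVDM
  have hCPT : CptStmt := Pool.Agent.EDX.H68.cpt hTBM hCPK
  have hSVD : SvdStmt := Pool.Agent.EDX.H29.svd
  have hFAM : FamStmt := Pool.Agent.Helper91_EDX.FAM.result hCPT hSVD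
  have hHDG : HdgStmt := Pool.Agent.EDX.H31.hdg
  have hHAD : HadStmt := Pool.Agent.EDX.H94.had
  have hBLK : BlkStmt := Pool.Agent.EDX.H68.blk hHAD
  have hLLN : LlnStmt := Pool.Agent.EDX.H86.lln
  have hFCT : FctStmt := Pool.Agent.EDX.H24.fct hHDG hBLK
  have hARC : ArcStmt := Pool.Agent.EDX.H49.arc hFAM hCPK hFCT hLLN
  have hCSB : CsbStmt := Pool.Agent.EDX.H32.csb hTAD hARC hBN2
  have hNMA : NmaStmt := Pool.Agent.EDX.H3.nma
  have hNMB : NmbStmt := Pool.Agent.EDX.H92.nmb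
  have hPAR : ParStmt := Pool.Agent.EDX.H67.par
  have hQZ0 : Qz0Stmt := Pool.Agent.EDX.H28.qz0
  have hFIN : FinStmt := Pool.Agent.EDX.H15.fin hCSA hCSB hNMA hNMB hPAR hQZ0 Pool.Agent.EDG.H66.set
  exact hFIN

end Pool.Agent.Results.MP_74088a_nt.DegreeExponentOne
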