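import Pool.Agent.Helper21_GLE.Final
import Pool.Agent.Helper95_GLE.DIV
import Pool.Agent.Helper27_GLE.IDX
import Pool.Agent.Helper25_GLE.PVT
import Pool.Agent.Helper31_GLE.ROO
import Pool.Agent.Helper97_GLE.PIV
import Pool.Agent.Helper52_GLE.HAD
import Pool.Agent.Helper69_GLE.HAL
import Pool.Agent.Helper91_GLE.ESC
import Pool.Agent.Helper52_GLE.NBH
import Pool.Agent.Helper56_GLE.SEP
import Pool.Agent.Helper91_GLE.SQA
import Pool.Agent.Helper33_GLE.INJ
import Pool.Agent.Helper72_GLE.BND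
import Pool.Agent.Helper33_GLE.ARE
import Pool.Agent.Helper92_GLE.BES
import Pool.Agent.Helper69_GLE.GEN
import Pool.Agent.Helper7_GLE.FAB
import Pool.Agent.Helper24_GLE.COE
import Pool.Agent.Helper31_GLE.MON
import Pool.Agent.Helper45_GLE.SUM
import Pool.Agent.Helper91_GLE.RDG
import Pool.Agent.Helper56_GLE.RAD
import Pool.Agent.Helper84_GLE.GRM
import Pool.Agent.Helper84_GLE.ENK
import Pool.Agent.Helper62_GLE.ARA
import Pool.Agent.Helper16_GLE.HAR
import Pool.Agent.Helper61_GLE.THE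
import Pool.Agent.Helper88_GLE.TST
import Pool.Agent.Helper61_GLE.PRG
import Pool.Agent.Helper38_GLE.ENB
import Pool.Agent.Helper65_GLE.KAP
import Pool.Agent.Helper21_GLE.INE
import Pool.Agent.Helper90_GLE.AMG
import Pool.Agent.Helper25_GLE.NUM
import Pool.Agent.Helper38_GLE.FIN
import Pool.Agent.Helper86_GLE.CEN

/-! Gleason polynomials have few irreducible factors, and almost all of their roots have
exponentially large degree over `ℚ`.

Let `f_c z = z ^ 2 + c`. We bound the number of minimal polynomials over `ℚ` of degree at most `D`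
of parameters `c` with finite critical orbit, by `C * D ^ (1 + ε)`, and deduce bounds for the number
of irreducible factors of the `n`-th Gleason polynomial `G_n` (whose roots are the parameters `c`
for which `0` has exact period `n`; the irreducible factors of `G_n` over `ℚ` are the minimal
polynomials of these `c`). -/

namespace Pool.Agent.Results.MP_74088a_nt.FewIrreducibleFactors

open Polynomial Pool.Agent.GLE

/-- the critical orbit of `z ↦ z ^ 2 + c` is finite (postcritically finite parameter) -/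
def PCF (c : ℂ) : Prop := (Set.range (fun n : ℕ => (fun z : ℂ => z ^ 2 + c)^[n] 0)).Finite

/-- `0` is periodic of exact period `n` for `z ↦ z ^ 2 + c`, that is (for `n ≥ 1`), `c` is a root of
the `n`-th Gleason polynomial -/
def ExactPeriod (n : ℕ) (c : ℂ) : Prop := Function.minimalPeriod (fun z : ℂ => z ^ 2 + c) 0 = n

/-- For every `ε > 0` there is `C` such that
(1) for every `D ≥ 1` at most `C D ^ (1 + ε)` polynomials of degree at most `D` are the minimal
polynomial over `ℚ` of a postcritically finite parameter;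
(2) for every `n ≥ 1` the `n`-th Gleason polynomial has at most `C 2 ^ ((1/2 + ε) n)` irreducible
factors over `ℚ`;
(3) if `ε < 1/2`, for every `n ≥ 1` the proportion of the roots of the `n`-th Gleason polynomial
which have degree at most `2 ^ ((1/2 - ε) n)` over `ℚ` is at most `C 2 ^ (- ε n)`. -/
theorem result : ∀ ε : ℝ, 0 < ε → ∃ C : ℝ, 0 < C ∧
    (∀ D : ℕ, 1 ≤ D →
      {p : ℚ[X] | ∃ c : ℂ, PCF c ∧ p = minpoly ℚ c ∧ p.natDegree ≤ D}.Finite ∧
      ({p : ℚ[X] | ∃ c : ℂ, PCF c ∧ p = minpoly ℚ c ∧ p.natDegree ≤ D}.ncard : ℝ) ≤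
        C * (D : ℝ) ^ (1 + ε)) ∧
    (∀ n : ℕ, 1 ≤ n →
      {p : ℚ[X] | ∃ c : ℂ, ExactPeriod n c ∧ p = minpoly ℚ c}.Finite ∧
      ({p : ℚ[X] | ∃ c : ℂ, ExactPeriod n c ∧ p = minpoly ℚ c}.ncard : ℝ) ≤
        C * (2 : ℝ) ^ ((1 / 2 + ε) * n)) ∧
    (ε < 1 / 2 → ∀ n : ℕ, 1 ≤ n → {c : ℂ | ExactPeriod n c}.Finite ∧
      ({c : ℂ | ExactPeriod n c ∧
        ((minpoly ℚ c).natDegree : ℝ) ≤ (2 : ℝ) ^ ((1 / 2 - ε) * n)}.ncard : ℝ) ≤
          C * (2 : ℝ) ^ (-(ε * n)) * {c : ℂ | ExactPeriod n c}.ncard) := by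
  have hROO : RooStmt := H31.roo
  have hESC : EscStmt := H91.esc
  have hSEP : SepStmt := H56.sep hESC
  have hNBH : NbhStmt := H52.nbh
  have hPIV : PivStmt := H97.piv H95.div (H25.pvt H27.idx) hROO
  have hHAL : HalStmt := H69.hal H52.had
  have hINJ : InjStmt := H33.inj H91.sqa
  have hFAB : FabStmt := H7.fab hINJ H72.bnd H33.are H92.bes (H69.gen hINJ)
  have hMON : MonStmt := H31.mon H24.coe hSEP
  have hSUM : SumStmt := H45.sum_ hESC hFAB
  have hRDG : RdgStmt := H91.rdg
  have hRAD : RadStmt := H56.rad hRDG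
  have hTST : TstStmt := H88.tst H16.har H61.the_ (H62.ara hRAD) hSEP
  have hPRG : PrgStmt := H61.prg hRAD hNBH
  have hENB : EnbStmt := H38.enb (H84.grm hRDG) H84.enk hNBH hROO hSEP
  have hKAP : KapStmt := H65.kap hTST hSUM hMON
  have hINE : IneStmt := H21.ine hPIV hHAL hENB hPRG hMON hSEP hROO
  have hFIN : FinStmt := H38.fin (H25.num hKAP hINE H90.amg)
  have hCEN : CenStmt := H86.cen hFIN hSEP hESC
  intro ε hε
  obtain ⟨C, hC, h1, -, h3, h4⟩ := H21.final hFIN hCEN hSEP hROO ε hε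
  exact ⟨C, hC, h1, h3, h4⟩

end Pool.Agent.Results.MP_74088a_nt.FewIrreducibleFactors
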