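import Pool.Agent.Helper61_Gleason.Norm
import Pool.Agent.Helper61_Gleason.Tree

/-! Most real centers near the tip `-2` of the Mandelbrot set have large degree over `ℚ`. -/

namespace Pool.Agent.Results.MP_74088a_nt.QuadraticDegreeCenters

open Finset Pool.Agent.H61G

theorem orb_ofReal (x : ℝ) (j : ℕ) : orb (x : ℂ) j = ((orb x j : ℝ) : ℂ) := by
  have := map_orb Complex.ofRealHom x j
  simpa using this.symm

theorem orb_add_of_eq {x : ℝ} {a b : ℕ} (h : orb x a = orb x b) (s : ℕ) :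
    orb x (a + s) = orb x (b + s) := by
  induction s with
  | zero => exact h
  | succ s ih => rw [← add_assoc, ← add_assoc, orb_succ, orb_succ, ih]

theorem orb_ne {x : ℝ} {n : ℕ} (h0 : orb x n = 0) (h1 : ∀ i, 1 ≤ i → i < n → orb x i ≠ 0)
    {a b : ℕ} (ha : 1 ≤ a) (hab : a < b) (hb : b < n) : orb x a ≠ orb x b := by
  intro h
  have h2 := orb_add_of_eq h (n - b)
  rw [show b + (n - b) = n by omega, h0] at h2
  exact h1 (a + (n - b)) (by omega) (by omega) h2

theorem minimalPeriod_eq {x : ℝ} {n : ℕ} (hn : 0 < n) (h0 : orb x n = 0)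
    (h1 : ∀ i, 1 ≤ i → i < n → orb x i ≠ 0) :
    Function.minimalPeriod (fun z : ℂ => z ^ 2 + (x : ℂ)) 0 = n := by
  have hp : ∀ k, Function.IsPeriodicPt (fun z : ℂ => z ^ 2 + (x : ℂ)) k 0 ↔ orb x k = 0 := by
    intro k
    unfold Function.IsPeriodicPt Function.IsFixedPt
    rw [← orb_eq_iterate, orb_ofReal]
    exact Complex.ofReal_eq_zero
  have hle := ((hp n).mpr h0).minimalPeriod_le hn
  have hpos := ((hp n).mpr h0).minimalPeriod_pos hn
  have hper := (hp _).mp (Function.isPeriodicPt_minimalPeriod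
    (fun z : ℂ => z ^ 2 + (x : ℂ)) 0)
  by_contra hne
  exact h1 _ hpos (lt_of_le_of_ne hle hne) hper

/-- the degree bound at one parameter -/
theorem degree_bound {x : ℝ} {n m : ℕ} (hm : 2 ≤ m) (hmn : m + 4 ≤ n) (h0 : orb x n = 0)
    (h1 : ∀ i, 1 ≤ i → i < n → orb x i ≠ 0) (h2 : ∀ j, 2 ≤ j → j < m + 2 → 1 ≤ orb x j) :
    Real.log 2 * (((m : ℝ) - 1) * ((m : ℝ) - 5)) ≤
      12 * Real.log m * (((minpoly ℚ (x : ℂ)).natDegree : ℝ) - 1) := by
  have hn : 0 < n := by omega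
  have h0c : orb (x : ℂ) n = 0 := by rw [orb_ofReal, h0]; simp
  have hdet : (Matrix.vandermonde (blk (x : ℂ) 1 m)).det =
      ∏ i : Fin m, ∏ j ∈ Ioi i, (blk (x : ℂ) 1 m j - blk (x : ℂ) 1 m i) :=
    Matrix.det_vandermonde _
  have hne : (Matrix.vandermonde (blk (x : ℂ) 1 m)).det ≠ 0 := by
    rw [hdet]
    refine Finset.prod_ne_zero_iff.mpr (fun i _ => Finset.prod_ne_zero_iff.mpr (fun j hj => ?_))
    have hij : (i : ℕ) < (j : ℕ) := Fin.lt_def.mp (Finset.mem_Ioi.mp hj)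
    have hjm := j.2
    simp only [blk, orb_ofReal]
    rw [← Complex.ofReal_sub]
    intro h
    have h3 := Complex.ofReal_eq_zero.mp h
    exact orb_ne h0 h1 (a := 1 + 1 + i) (b := 1 + 1 + j) (by omega) (by omega) (by omega)
      (by linarith)
  have hlow := one_le_norm_mul hn h0c 1 m hne
  have hb : ∀ j k, 1 < j → j < k → k ≤ 1 + m → (2 : ℝ) ≤ ‖orb (x : ℂ) j + orb (x : ℂ) k‖ := by
    intro j k hj hjk hk
    rw [orb_ofReal, orb_ofReal, ← Complex.ofReal_add, Complex.norm_real]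
    have h3 := h2 j (by omega) (by omega)
    have h4 := h2 k (by omega) (by omega)
    calc (2 : ℝ) ≤ orb x j + orb x k := by linarith
      _ ≤ ‖orb x j + orb x k‖ := Real.le_norm_self _
  have hV : ‖(Matrix.vandermonde (blk (x : ℂ) 1 m)).det‖ ≤
      ∏ i : Fin m, ∏ j ∈ Ioi i, (4 / (2 : ℝ) ^ (m - (j : ℕ))) := by
    rw [hdet, norm_prod]
    refine Finset.prod_le_prod (fun i _ => norm_nonneg _) (fun i _ => ?_)
    rw [norm_prod]
    refine Finset.prod_le_prod (fun j _ => norm_nonneg _) (fun j hj => ?_)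
    have hij : (i : ℕ) < (j : ℕ) := Fin.lt_def.mp (Finset.mem_Ioi.mp hj)
    have hjm := j.2
    simp only [blk]
    exact block_contract hn h0c (by norm_num) hb (m - j) (1 + 1 + i) (1 + 1 + j) (by omega)
      (by omega) (by omega) (by omega)
  obtain ⟨hPpos, hPlog⟩ := tri_prod 2 (by norm_num) m
  have hmpos : (0 : ℝ) < m := by
    have : 0 < m := by omega
    exact_mod_cast this
  have hlogm : 0 ≤ Real.log m := Real.log_natCast_nonneg m
  have hF : (0 : ℝ) < (m.factorial : ℝ) * (m : ℝ) ^ m := by positivity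
  have hfac : (m.factorial : ℝ) * (m : ℝ) ^ m ≤ (m : ℝ) ^ (2 * m) := by
    have h3 : (m.factorial : ℝ) ≤ (m : ℝ) ^ m := by exact_mod_cast Nat.factorial_le_pow m
    calc (m.factorial : ℝ) * (m : ℝ) ^ m ≤ (m : ℝ) ^ m * (m : ℝ) ^ m :=
          mul_le_mul_of_nonneg_right h3 (by positivity)
      _ = (m : ℝ) ^ (2 * m) := by rw [← pow_add]; congr 1; ring
  set D := (minpoly ℚ (x : ℂ)).natDegree with hD
  have hD1 : 1 ≤ D := minpoly.natDegree_pos ((isIntegral_param hn h0c).tower_top)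
  have hprod : (1 : ℝ) ≤ (∏ i : Fin m, ∏ j ∈ Ioi i, (4 / (2 : ℝ) ^ (m - (j : ℕ)))) *
      ((m : ℝ) ^ (2 * m)) ^ (D - 1) := by
    refine hlow.trans ?_
    refine mul_le_mul hV ?_ (by positivity) hPpos.le
    exact pow_le_pow_left₀ hF.le hfac _
  have hlog := Real.log_nonneg hprod
  rw [Real.log_mul hPpos.ne' (by positivity), hPlog, Real.log_pow, Real.log_pow] at hlog
  have hD2 : ((D - 1 : ℕ) : ℝ) = (D : ℝ) - 1 := by
    push_cast [Nat.cast_sub hD1]; ring
  rw [hD2] at hlog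
  have hlog4 : Real.log 4 = 2 * Real.log 2 := by
    rw [show (4 : ℝ) = 2 ^ 2 by norm_num, Real.log_pow]; norm_num
  rw [hlog4] at hlog
  push_cast at hlog
  -- `m * goal`
  have hkey : (m : ℝ) * (Real.log 2 * (((m : ℝ) - 1) * ((m : ℝ) - 5))) ≤
      (m : ℝ) * (12 * Real.log m * ((D : ℝ) - 1)) := by
    nlinarith [hlog]
  exact le_of_mul_le_mul_left hkey hmpos

theorem final_bound {m D : ℕ} (hm : 2 ≤ m) (hD : 1 ≤ D)
    (h : Real.log 2 * (((m : ℝ) - 1) * ((m : ℝ) - 5)) ≤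
      12 * Real.log m * ((D : ℝ) - 1)) :
    (m : ℝ) ^ 2 ≤ 50 * Real.log m * D := by
  have hl2 : (0.69 : ℝ) < Real.log 2 := by
    have := Real.log_two_gt_d9; linarith
  have hDr : (1 : ℝ) ≤ D := by exact_mod_cast hD
  have hpow : ∀ a : ℕ, 2 ^ a ≤ m → a * Real.log 2 ≤ Real.log m := by
    intro a ha
    rw [← Real.log_pow]
    apply Real.log_le_log (by positivity)
    exact_mod_cast ha
  rcases Nat.lt_or_ge m 10 with hm10 | hm10
  · -- small `m`
    have hsmall : (m : ℝ) ^ 2 ≤ 50 * Real.log m := by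
      rcases Nat.lt_or_ge m 4 with h4 | h4
      · have h5 := hpow 1 (by omega)
        have h6 : (m : ℝ) ≤ 3 := by exact_mod_cast (by omega : m ≤ 3)
        push_cast at h5
        nlinarith [(Nat.cast_nonneg m : (0 : ℝ) ≤ m)]
      rcases Nat.lt_or_ge m 8 with h8 | h8
      · have h5 := hpow 2 (by omega)
        have h6 : (m : ℝ) ≤ 7 := by exact_mod_cast (by omega : m ≤ 7)
        push_cast at h5
        nlinarith [(Nat.cast_nonneg m : (0 : ℝ) ≤ m)]
      · have h5 := hpow 3 (by omega)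
        have h6 : (m : ℝ) ≤ 9 := by exact_mod_cast (by omega : m ≤ 9)
        push_cast at h5
        nlinarith [(Nat.cast_nonneg m : (0 : ℝ) ≤ m)]
    have hl : 0 ≤ Real.log m := Real.log_natCast_nonneg m
    nlinarith [mul_nonneg hl (sub_nonneg.mpr hDr)]
  · have hmr : (10 : ℝ) ≤ m := by exact_mod_cast hm10
    have hl : 0 ≤ Real.log m := Real.log_natCast_nonneg m
    have h1 : 0.45 * (m : ℝ) ^ 2 ≤ ((m : ℝ) - 1) * ((m : ℝ) - 5) := by nlinarith
    have h2 : 0.69 * (0.45 * (m : ℝ) ^ 2) ≤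
        Real.log 2 * (((m : ℝ) - 1) * ((m : ℝ) - 5)) := by
      apply mul_le_mul hl2.le h1 (by positivity) (by linarith)
    nlinarith

/-- Let `2 ≤ m` and `m + 4 ≤ n`. At least `2 ^ (n - m - 4 - ⌊(n - m - 4) / m⌋)` real parameters
`c ∈ (-2, -1)` for which `0` has exact period `n` under `x ↦ x ^ 2 + c` have degree at least
`m ^ 2 / (50 log m)` over `ℚ`. -/
theorem result : ∀ m n : ℕ, 2 ≤ m → m + 4 ≤ n →
    ∃ S : Finset ℝ, 2 ^ (n - m - 4 - (n - m - 4) / m) ≤ S.card ∧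
      ∀ c ∈ S, -2 < c ∧ c < -1 ∧
        Function.minimalPeriod (fun x : ℂ => x ^ 2 + (c : ℂ)) 0 = n ∧
        (m : ℝ) ^ 2 ≤ 50 * Real.log m * (minpoly ℚ (c : ℂ)).natDegree := by
  intro m n hm hmn
  obtain ⟨S, hS1, hS2⟩ := many_centers (m + 2) n (by omega) (by omega)
  refine ⟨S, ?_, ?_⟩
  · rw [show n - (m + 2) - 2 = n - m - 4 by omega, show m + 2 - 2 = m by omega] at hS1
    exact hS1
  · intro c hc
    obtain ⟨h1, h2, h3, h4, h5⟩ := hS2 c hc
    have hn : 0 < n := by omega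
    refine ⟨h1, h2, minimalPeriod_eq hn h3 h4, ?_⟩
    have h0c : orb (c : ℂ) n = 0 := by rw [orb_ofReal, h3]; simp
    exact final_bound hm (minpoly.natDegree_pos ((isIntegral_param hn h0c).tower_top))
      (degree_bound hm hmn h3 h4 h5)

end Pool.Agent.Results.MP_74088a_nt.QuadraticDegreeCenters
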